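import Pool.Agent.H15.LU.Targets

/-!
# MP_812e67_ag, module EXP: Taylor expansion of the arcs
-/

set_option autoImplicit false

namespace Pool.Agent.H69.LU.EXP

open Pool.Agent.H15.LU
open Filter Topology Asymptotics

/-- the line `![0, z, 0]` -/
noncomputable def L : ℂ →L[ℂ] (Fin 3 → ℂ) := ContinuousLinearMap.toSpanSingleton ℂ ![0, 1, 0]

theorem L_apply (z : ℂ) : L z = ![0, z, 0] := by
  ext i
  fin_cases i <;> simp [L, ContinuousLinearMap.toSpanSingleton_apply]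

theorem tendsto_cast : Tendsto (fun ν : ℝ => (ν : ℂ)) (𝓝[>] 0) (𝓝 0) := by
  have h : Tendsto (fun ν : ℝ => (ν : ℂ)) (𝓝 0) (𝓝 ((0 : ℝ) : ℂ)) :=
    Complex.continuous_ofReal.tendsto 0
  rw [Complex.ofReal_zero] at h
  exact h.mono_left nhdsWithin_le_nhds

theorem tendsto_cast_pow (k : ℕ) : Tendsto (fun ν : ℝ => (ν : ℂ) ^ (k + 1)) (𝓝[>] 0) (𝓝 0) := by
  have := tendsto_cast.pow (k + 1)
  rwa [zero_pow (Nat.succ_ne_zero k)] at this

/-- expansion in one variable -/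
theorem one_var {ψ : (Fin 3 → ℂ) → Fin 3 → ℂ} (han : AnalyticAt ℂ ψ 0) (h0 : ψ 0 = 0) :
    ∃ k₂ k₃ : Fin 3 → ℂ, (fun ν : ℝ => ψ ![0, (ν : ℂ) ^ 2, 0] -
      ((ν : ℂ) ^ 2 • fderiv ℂ ψ 0 ![0, 1, 0] + (ν : ℂ) ^ 4 • k₂ + (ν : ℂ) ^ 6 • k₃))
        =o[𝓝[>] 0] fun ν : ℝ => ν ^ 6 := by
  have hg : AnalyticAt ℂ (ψ ∘ L) 0 := by
    apply AnalyticAt.comp
    · rw [map_zero]; exact han
    · exact L.analyticAt 0
  obtain ⟨p, hp⟩ := hg
  have hc0 : p.coeff 0 = 0 := by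
    have h1 := hp.coeff_zero (fun _ => 1)
    rw [FormalMultilinearSeries.coeff]
    have h2 : (ψ ∘ L) 0 = 0 := by
      simp [h0]
    rw [h2] at h1
    exact h1
  have hc1 : p.coeff 1 = fderiv ℂ ψ 0 ![0, 1, 0] := by
    have h1 : deriv (ψ ∘ L) 0 = p.coeff 1 := by
      rw [hp.deriv]
      rfl
    have h2 : HasFDerivAt ψ (fderiv ℂ ψ 0) (L 0) := by
      rw [map_zero]
      exact han.differentiableAt.hasFDerivAt
    have h3 : HasFDerivAt (ψ ∘ L) ((fderiv ℂ ψ 0).comp L) 0 := h2.comp 0 L.hasFDerivAt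
    have h4 := h3.hasDerivAt.deriv
    rw [← h1, h4]
    simp [L_apply]
  have hO := hp.isBigO_sub_partialSum_pow 4
  have hsum : ∀ y : ℂ, p.partialSum 4 y =
      y • fderiv ℂ ψ 0 ![0, 1, 0] + y ^ 2 • p.coeff 2 + y ^ 3 • p.coeff 3 := by
    intro y
    rw [FormalMultilinearSeries.partialSum]
    simp only [FormalMultilinearSeries.apply_eq_pow_smul_coeff, Finset.sum_range_succ,
      Finset.sum_range_zero, hc0, hc1, smul_zero, zero_add, pow_one]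
  refine ⟨p.coeff 2, p.coeff 3, ?_⟩
  have ht : Tendsto (fun ν : ℝ => (ν : ℂ) ^ 2) (𝓝[>] 0) (𝓝 0) := tendsto_cast_pow 1
  have h1 := hO.comp_tendsto ht
  have h2 : (fun ν : ℝ => ψ ![0, (ν : ℂ) ^ 2, 0] -
      ((ν : ℂ) ^ 2 • fderiv ℂ ψ 0 ![0, 1, 0] + (ν : ℂ) ^ 4 • p.coeff 2 +
        (ν : ℂ) ^ 6 • p.coeff 3)) =O[𝓝[>] 0] fun ν : ℝ => ν ^ 8 := by
    refine (h1.congr ?_ ?_)
    · intro ν
      simp only [Function.comp_apply, zero_add, hsum, L_apply]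
      rw [← pow_mul, ← pow_mul]
    · intro ν
      simp only [Function.comp_apply, norm_pow, Complex.norm_real, Real.norm_eq_abs, sq_abs]
      rw [← pow_mul]
  refine h2.trans_isLittleO ?_
  have h3 : Tendsto (fun ν : ℝ => ν) (𝓝[>] 0) (𝓝 0) := tendsto_id.mono_left nhdsWithin_le_nhds
  have h4 : (fun ν : ℝ => ν ^ 8) =o[𝓝 0] fun ν : ℝ => ν ^ 6 :=
    isLittleO_pow_pow (by norm_num)
  exact h4.mono nhdsWithin_le_nhds

/-- the strict differentiability -/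
theorem strict {ψ : (Fin 3 → ℂ) → Fin 3 → ℂ} (han : AnalyticAt ℂ ψ 0) (a : ℂ) :
    (fun ν : ℝ => ψ (qq a ν) - ψ ![0, (ν : ℂ) ^ 2, 0] -
      (a * (ν : ℂ) ^ 6) • fderiv ℂ ψ 0 ![1, 0, 0]) =o[𝓝[>] 0] fun ν : ℝ => ν ^ 6 := by
  have hs := han.hasStrictFDerivAt.isLittleO
  have t1 : Tendsto (fun ν : ℝ => qq a ν) (𝓝[>] 0) (𝓝 0) := by
    rw [tendsto_pi_nhds]
    intro i
    fin_cases i
    · have := (tendsto_cast_pow 5).const_mul a
      simpa [qq] using this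
    · simpa [qq] using tendsto_cast_pow 1
    · simp [qq]
  have t2 : Tendsto (fun ν : ℝ => (![0, (ν : ℂ) ^ 2, 0] : Fin 3 → ℂ)) (𝓝[>] 0) (𝓝 0) := by
    rw [tendsto_pi_nhds]
    intro i
    fin_cases i
    · simp
    · simpa using tendsto_cast_pow 1
    · simp
  have h1 := hs.comp_tendsto (t1.prodMk_nhds t2)
  have hdiff : ∀ ν : ℝ, qq a ν - ![0, (ν : ℂ) ^ 2, 0] = (a * (ν : ℂ) ^ 6) • ![1, 0, 0] := by
    intro ν
    ext i
    fin_cases i <;> simp [qq]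
  have h2 : (fun ν : ℝ => ψ (qq a ν) - ψ ![0, (ν : ℂ) ^ 2, 0] -
      (a * (ν : ℂ) ^ 6) • fderiv ℂ ψ 0 ![1, 0, 0]) =o[𝓝[>] 0]
        fun ν : ℝ => (a * (ν : ℂ) ^ 6) • (![1, 0, 0] : Fin 3 → ℂ) := by
    refine h1.congr ?_ ?_
    · intro ν
      simp only [Function.comp_apply]
      rw [hdiff, map_smul]
    · intro ν
      simp only [Function.comp_apply]
      rw [hdiff]
  refine h2.trans_isBigO ?_
  refine IsBigO.of_bound (‖a‖ * ‖(![1, 0, 0] : Fin 3 → ℂ)‖) (Eventually.of_forall fun ν => ?_)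
  rw [norm_smul, norm_mul, norm_pow, norm_pow, Complex.norm_real]
  apply le_of_eq
  ring

theorem exp_ : T_EXP := by
  intro ψ hψ
  obtain ⟨han, h0, -⟩ := hψ
  obtain ⟨k₂, k₃, h1⟩ := one_var han h0
  refine ⟨k₂, k₃, fun a i => ?_⟩
  have h2 := (strict han a).add h1
  rw [isLittleO_pi] at h2
  refine (h2 i).congr_left fun ν => ?_
  simp only [Pi.add_apply, Pi.sub_apply, Pi.smul_apply, smul_eq_mul]
  ring

end Pool.Agent.H69.LU.EXP
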