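import Pool.Agent.H15.LU.Targets

/-!
# MP_812e67_ag, module INJ: injectivity of the invariants
-/

set_option autoImplicit false

namespace Pool.Agent.H69.LU.INJ

open Pool.Agent.H15.LU

theorem small_cube {a : ℂ} (h : ‖a‖ < 1 / 100) : ‖a ^ 3‖ ≤ 1 / 1000000 := by
  rw [norm_pow]
  calc ‖a‖ ^ 3 ≤ (1 / 100) ^ 3 := pow_le_pow_left₀ (norm_nonneg _) h.le 3
    _ = 1 / 1000000 := by norm_num

theorem norm27 : ‖(27 : ℂ)‖ = 27 := by simp

theorem norm4 : ‖(4 : ℂ)‖ = 4 := by simp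

theorem norm32 : ‖(32 : ℂ)‖ = 32 := by simp

theorem bd_N {A : ℂ} (h : ‖A‖ ≤ 1 / 1000000) : 26 ≤ ‖4 * A + 27‖ ∧ ‖4 * A + 27‖ ≤ 28 := by
  have h1 : ‖4 * A‖ = 4 * ‖A‖ := by rw [norm_mul, norm4]
  constructor
  · have h2 : ‖(27 : ℂ)‖ ≤ ‖4 * A + 27‖ + ‖4 * A‖ := by
      calc ‖(27 : ℂ)‖ = ‖(4 * A + 27) - 4 * A‖ := by congr 1; ring
        _ ≤ _ := norm_sub_le _ _
    rw [norm27, h1] at h2
    linarith
  · have h2 := norm_add_le (4 * A) (27 : ℂ)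
    rw [norm27, h1] at h2
    linarith

theorem bd_B {A : ℂ} (h : ‖A‖ ≤ 1 / 1000000) : 26 ≤ ‖27 - 32 * A‖ ∧ ‖27 - 32 * A‖ ≤ 28 := by
  have h1 : ‖32 * A‖ = 32 * ‖A‖ := by rw [norm_mul, norm32]
  constructor
  · have h2 : ‖(27 : ℂ)‖ ≤ ‖27 - 32 * A‖ + ‖32 * A‖ := by
      calc ‖(27 : ℂ)‖ = ‖(27 - 32 * A) + 32 * A‖ := by congr 1; ring
        _ ≤ _ := norm_add_le _ _
    rw [norm27, h1] at h2
    linarith
  · have h2 := norm_sub_le (27 : ℂ) (32 * A)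
    rw [norm27, h1] at h2
    linarith

theorem cube_inj {A A' : ℂ} (hA : ‖A‖ ≤ 1 / 1000000) (hA' : ‖A'‖ ≤ 1 / 1000000)
    (h : A' * (4 * A' + 27) ^ 3 * (27 - 32 * A) ^ 3 =
      A * (4 * A + 27) ^ 3 * (27 - 32 * A') ^ 3) : A = A' := by
  by_contra hne
  have hne' : A' - A ≠ 0 := sub_ne_zero.mpr (Ne.symm hne)
  obtain ⟨n1, n2⟩ := bd_N hA
  obtain ⟨n3, n4⟩ := bd_N hA'
  obtain ⟨b1, b2⟩ := bd_B hA
  obtain ⟨b3, b4⟩ := bd_B hA'
  set N := 4 * A + 27 with hN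
  set N' := 4 * A' + 27 with hN'
  set B := 27 - 32 * A with hB
  set B' := 27 - 32 * A' with hB'
  have key : (A' - A) * ((N' * B) ^ 3 +
      972 * A * ((N' * B) ^ 2 + (N' * B) * (N * B') + (N * B') ^ 2)) = 0 := by
    have e1 : N' * B - N * B' = 972 * (A' - A) := by
      rw [hN, hN', hB, hB']; ring
    linear_combination h - A * ((N' * B) ^ 2 + (N' * B) * (N * B') + (N * B') ^ 2) * e1
  have h2 := (mul_eq_zero.mp key).resolve_left hne'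
  have h3 : (N' * B) ^ 3 =
      -(972 * A * ((N' * B) ^ 2 + (N' * B) * (N * B') + (N * B') ^ 2)) :=
    eq_neg_of_add_eq_zero_left h2
  have h4 := congrArg norm h3
  rw [norm_neg, norm_mul, norm_mul, norm_pow, norm_mul] at h4
  have l1 : (26 : ℝ) * 26 ≤ ‖N'‖ * ‖B‖ := mul_le_mul n3 b1 (by norm_num) (norm_nonneg _)
  have l2 : ((26 : ℝ) * 26) ^ 3 ≤ (‖N'‖ * ‖B‖) ^ 3 := pow_le_pow_left₀ (by norm_num) l1 3
  have u1 : ‖N' * B‖ ≤ 784 := by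
    rw [norm_mul]
    calc ‖N'‖ * ‖B‖ ≤ 28 * 28 := mul_le_mul n4 b2 (norm_nonneg _) (by norm_num)
      _ = 784 := by norm_num
  have u2 : ‖N * B'‖ ≤ 784 := by
    rw [norm_mul]
    calc ‖N‖ * ‖B'‖ ≤ 28 * 28 := mul_le_mul n2 b4 (norm_nonneg _) (by norm_num)
      _ = 784 := by norm_num
  have u3 : ‖(N' * B) ^ 2 + (N' * B) * (N * B') + (N * B') ^ 2‖ ≤ 3 * 784 ^ 2 := by
    have t1 : ‖(N' * B) ^ 2‖ ≤ 784 ^ 2 := by
      rw [norm_pow]
      exact pow_le_pow_left₀ (norm_nonneg _) u1 2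
    have t2 : ‖(N * B') ^ 2‖ ≤ 784 ^ 2 := by
      rw [norm_pow]
      exact pow_le_pow_left₀ (norm_nonneg _) u2 2
    have t3 : ‖(N' * B) * (N * B')‖ ≤ 784 ^ 2 := by
      rw [norm_mul, sq]
      exact mul_le_mul u1 u2 (norm_nonneg _) (by norm_num)
    calc _ ≤ ‖(N' * B) ^ 2 + (N' * B) * (N * B')‖ + ‖(N * B') ^ 2‖ := norm_add_le _ _
      _ ≤ ‖(N' * B) ^ 2‖ + ‖(N' * B) * (N * B')‖ + ‖(N * B') ^ 2‖ := by
        gcongr
        exact norm_add_le _ _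
      _ ≤ _ := by linarith
  have n972 : ‖(972 : ℂ)‖ = 972 := by simp
  have u4 : ‖(972 : ℂ)‖ * ‖A‖ ≤ 972 / 1000000 := by
    rw [n972]
    linarith
  have u5 : ‖(972 : ℂ)‖ * ‖A‖ * ‖(N' * B) ^ 2 + (N' * B) * (N * B') + (N * B') ^ 2‖ ≤
      972 / 1000000 * (3 * 784 ^ 2) :=
    mul_le_mul u4 u3 (norm_nonneg _) (by norm_num)
  rw [← h4] at u5
  have : ((26 : ℝ) * 26) ^ 3 ≤ 972 / 1000000 * (3 * 784 ^ 2) := l2.trans u5
  norm_num at this

theorem inj (h1 : T_DSC) : T_INJ := by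
  intro a c a' c' κ u₁ u₂ u₃ v₁ v₂ v₃ hs hs' hc hc' hr hr' e1 e2 e3
  obtain ⟨i1, i2, i3, i4⟩ := h1 a c u₁ u₂ u₃ hr _ _ _ rfl rfl rfl
  obtain ⟨j1, j2, j3, j4⟩ := h1 a' c' v₁ v₂ v₃ hr' _ _ _ rfl rfl rfl
  rw [e1, e2, e3] at j1 j2 j3 j4
  have k1 : 3 * c' + 2 * a' ^ 2 = κ * (3 * c + 2 * a ^ 2) := by
    rw [← j1, ← i1]; ring
  have k2 : a' * (a' ^ 3 + 27 / 4) = κ ^ 2 * (a * (a ^ 3 + 27 / 4)) := by
    rw [← j2, ← i2]; ring
  have k3 : 729 / 64 + 135 / 4 * a' ^ 3 - 2 * a' ^ 6 =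
      κ ^ 3 * (729 / 64 + 135 / 4 * a ^ 3 - 2 * a ^ 6) := by
    rw [← j3, ← i3]; ring
  have k4 : -((27 - 32 * a' ^ 3) / 16) ^ 3 = κ ^ 6 * -((27 - 32 * a ^ 3) / 16) ^ 3 := by
    rw [← j4, ← i4]; ring
  have hA := small_cube hs.1
  have hA' := small_cube hs'.1
  have hAA : a ^ 3 = a' ^ 3 := by
    apply cube_inj hA hA'
    have k5 : a' ^ 3 * (4 * a' ^ 3 + 27) ^ 3 = κ ^ 6 * (a ^ 3 * (4 * a ^ 3 + 27) ^ 3) := by
      have := congrArg (fun t => (4 * t) ^ 3) k2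
      linear_combination this
    have k6 : (27 - 32 * a' ^ 3) ^ 3 = κ ^ 6 * (27 - 32 * a ^ 3) ^ 3 := by
      linear_combination (-4096) * k4
    calc a' ^ 3 * (4 * a' ^ 3 + 27) ^ 3 * (27 - 32 * a ^ 3) ^ 3
        = κ ^ 6 * (a ^ 3 * (4 * a ^ 3 + 27) ^ 3) * (27 - 32 * a ^ 3) ^ 3 := by rw [k5]
      _ = a ^ 3 * (4 * a ^ 3 + 27) ^ 3 * (κ ^ 6 * (27 - 32 * a ^ 3) ^ 3) := by ring
      _ = _ := by rw [k6]
  -- the third invariant does not vanish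
  have hD3 : (729 / 64 + 135 / 4 * a ^ 3 - 2 * a ^ 6 : ℂ) ≠ 0 := by
    intro h0
    have h2 : (729 / 64 : ℂ) = -(135 / 4) * a ^ 3 + 2 * (a ^ 3 * a ^ 3) := by
      linear_combination h0
    have h3 := congrArg norm h2
    have h4 : ‖(729 / 64 : ℂ)‖ = 729 / 64 := by
      rw [norm_div]; simp
    have h5 : ‖(-(135 / 4) : ℂ)‖ = 135 / 4 := by
      rw [norm_neg, norm_div]; simp
    have h6 : ‖(2 : ℂ)‖ = 2 := by simp
    have h7 := norm_add_le (-(135 / 4) * a ^ 3) (2 * (a ^ 3 * a ^ 3))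
    rw [← h3, norm_mul (-(135 / 4) : ℂ), norm_mul (2 : ℂ), norm_mul (a ^ 3), h4, h5, h6] at h7
    have h8 : ‖a ^ 3‖ * ‖a ^ 3‖ ≤ 1 / 1000000 * (1 / 1000000) :=
      mul_le_mul hA hA (norm_nonneg _) (by norm_num)
    linarith
  have hκ3 : κ ^ 3 = 1 := by
    have e6 : a' ^ 6 = a ^ 6 := by
      have : a' ^ 6 = (a' ^ 3) ^ 2 := by ring
      rw [this, ← hAA]; ring
    rw [← hAA, e6] at k3
    have h2 : (κ ^ 3 - 1) * (729 / 64 + 135 / 4 * a ^ 3 - 2 * a ^ 6) = 0 := by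
      linear_combination -k3
    exact sub_eq_zero.mp ((mul_eq_zero.mp h2).resolve_right hD3)
  have h27 : (a ^ 3 + 27 / 4 : ℂ) ≠ 0 := by
    intro h0
    obtain ⟨n1, -⟩ := bd_N hA
    have : (4 * a ^ 3 + 27 : ℂ) = 0 := by linear_combination 4 * h0
    rw [this, norm_zero] at n1
    norm_num at n1
  have ha' : a' = κ ^ 2 * a := by
    rw [← hAA] at k2
    have h2 : (a' - κ ^ 2 * a) * (a ^ 3 + 27 / 4) = 0 := by linear_combination k2
    exact sub_eq_zero.mp ((mul_eq_zero.mp h2).resolve_right h27)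
  have hc'' : c' = κ * c := by
    rw [ha'] at k1
    have h4 : κ ^ 4 = κ := by
      calc κ ^ 4 = κ ^ 3 * κ := by ring
        _ = κ := by rw [hκ3, one_mul]
    linear_combination (1 / 3) * k1 - (2 / 3) * a ^ 2 * h4
  -- the sector
  have hre : 0 < κ.re := by
    unfold Sector at hc hc'
    have hcre : 0 < c.re := lt_of_le_of_lt (abs_nonneg _) hc
    have hcre' : 0 < c'.re := lt_of_le_of_lt (abs_nonneg _) hc'
    have hpos : 0 < c'.re * c.re + c'.im * c.im := by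
      have h2 : |c'.im * c.im| < c'.re * c.re := by
        rw [abs_mul]
        exact mul_lt_mul'' hc' hc (abs_nonneg _) (abs_nonneg _)
      have h3 := (abs_lt.mp h2).1
      linarith
    have h4 : c'.re * c.re + c'.im * c.im = κ.re * (c.re ^ 2 + c.im ^ 2) := by
      rw [hc'']
      simp only [Complex.mul_re, Complex.mul_im]
      ring
    rw [h4] at hpos
    have h5 : 0 < c.re ^ 2 + c.im ^ 2 := by positivity
    exact (pos_iff_pos_of_mul_pos hpos).mpr h5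
  have hκ : κ = 1 := by
    by_contra hne
    have h2 : (κ - 1) * (κ ^ 2 + κ + 1) = 0 := by linear_combination hκ3
    have h3 := (mul_eq_zero.mp h2).resolve_left (sub_ne_zero.mpr hne)
    have h4 := congrArg Complex.re h3
    have h5 := congrArg Complex.im h3
    simp only [sq, Complex.add_re, Complex.mul_re, Complex.one_re, Complex.zero_re,
      Complex.add_im, Complex.mul_im, Complex.one_im, Complex.zero_im] at h4 h5
    have h6 : κ.im * (2 * κ.re + 1) = 0 := by linarith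
    rcases mul_eq_zero.mp h6 with h7 | h7
    · rw [h7] at h4
      nlinarith
    · linarith
  subst hκ
  refine ⟨?_, ?_⟩
  · rw [ha']; ring
  · rw [hc'']; ring

end Pool.Agent.H69.LU.INJ
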